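import Pool.Agent.Helper38.IA.St

/-!
# Module F2 of project IA: one polynomial inequality
-/

set_option autoImplicit false

namespace Pool.Agent.Helper40.IA38

open Finset Pool.Agent.Helper93.IA Pool.Agent.Helper38.IA

private theorem cubic (x : ℝ) (hx0 : 0 ≤ x) (hx : x ≤ 20 / 97 + 41 / 10 ^ 7) :
    18 * x ^ 3 - 19 * x ^ 2 + 8 * x - 1 ≤ -(4 / 10 ^ 4) := by
  obtain ⟨y, hy⟩ : ∃ y : ℝ, y = 20 / 97 + 41 / 10 ^ 7 := ⟨_, rfl⟩
  rw [← hy] at hx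
  have h1 : 18 * y ^ 3 - 19 * y ^ 2 + 8 * y - 1 ≤ -(4 / 10 ^ 4) := by
    rw [hy]
    norm_num
  have h2 : 0 ≤ 18 * (x ^ 2 + x * y + y ^ 2) - 19 * (x + y) + 8 := by
    rw [hy]
    nlinarith [sq_nonneg (x - 425 / 1000)]
  have h3 : 18 * x ^ 3 - 19 * x ^ 2 + 8 * x - 1 - (18 * y ^ 3 - 19 * y ^ 2 + 8 * y - 1) =
      (x - y) * (18 * (x ^ 2 + x * y + y ^ 2) - 19 * (x + y) + 8) := by ring
  have h4 : (x - y) * (18 * (x ^ 2 + x * y + y ^ 2) - 19 * (x + y) + 8) ≤ 0 :=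
    mul_nonpos_of_nonpos_of_nonneg (by linarith) h2
  linarith

theorem hF2 : StF2 := by
  intro n κ ε b U k hn hκ0 hκ hε hb0 hb hk hU1 hU2
  obtain ⟨x, hx⟩ : ∃ x : ℝ, x = κ + ε + 40 * b := ⟨_, rfl⟩
  obtain ⟨h, hh⟩ : ∃ h : ℝ, U = h * n ^ 2 := ⟨U / n ^ 2, by field_simp⟩
  obtain ⟨d, hd⟩ : ∃ d : ℝ, d = x - h := ⟨_, rfl⟩
  rw [← hx] at hk
  have hε0 : (0 : ℝ) < ε := by rw [hε]; positivity
  have hx0 : 0 ≤ x := by rw [hx]; positivity
  have hxu : x ≤ 20 / 97 + 41 / 10 ^ 7 := by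
    rw [hx]
    have : 40 * b ≤ 40 / 10 ^ 7 := by
      have := hb
      rw [hε] at this
      linarith
    rw [hε]
    linarith
  have hn2 : 0 < n ^ 2 := by positivity
  have hh1 : κ - ε ≤ h := by
    rw [hh] at hU1
    exact le_of_mul_le_mul_right hU1 hn2
  have hh2 : h ≤ x := by
    rw [hh, hk] at hU2
    have : h * n ^ 2 ≤ x * n ^ 2 := by linarith
    exact le_of_mul_le_mul_right this hn2
  have hd0 : 0 ≤ d := by rw [hd]; linarith
  have hdu : d ≤ 42 / 10 ^ 7 := by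
    rw [hd]
    have h1 : x ≤ κ + 41 / 10 ^ 7 := by
      rw [hx]
      rw [hε] at hb ⊢
      linarith
    have h2 : κ - 1 / 10 ^ 7 ≤ h := by
      rw [hε] at hh1
      exact hh1
    linarith
  constructor
  · rw [hk]
    have h4 : 4 * x < 1 := by
      have : (4 : ℝ) * (20 / 97 + 41 / 10 ^ 7) < 1 := by norm_num
      linarith
    nlinarith
  · have hc := cubic x hx0 hxu
    have hs : (1 - x) * (18 * x - 2) ≤ 5 := by nlinarith
    have hds : d * ((1 - x) * (18 * x - 2)) ≤ d * 5 := mul_le_mul_of_nonneg_left hs hd0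
    have hG : 6 * x * (1 - 3 * h + 3 * x * h) - (1 - h) ^ 2 =
        (18 * x ^ 3 - 19 * x ^ 2 + 8 * x - 1) + d * ((1 - x) * (18 * x - 2)) - d ^ 2 := by
      have : h = x - d := by rw [hd]; ring
      rw [this]
      ring
    have hd2 : 0 ≤ d ^ 2 := sq_nonneg d
    have hlt : 6 * x * (1 - 3 * h + 3 * x * h) - (1 - h) ^ 2 < 0 := by
      rw [hG]
      have h5 : d * 5 ≤ 210 / 10 ^ 7 := by linarith
      have h6 : (-(4 / 10 ^ 4) : ℝ) + 210 / 10 ^ 7 < 0 := by norm_num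
      linarith
    have hn4 : 0 < n ^ 4 := by positivity
    have h7 : (6 * x * (1 - 3 * h + 3 * x * h) - (1 - h) ^ 2) * n ^ 4 < 0 :=
      mul_neg_of_neg_of_pos hlt hn4
    have h8 : 6 * k * (n ^ 3 - 3 * n * U + 3 * k * U) - (n ^ 2 - U) ^ 2 =
        (6 * x * (1 - 3 * h + 3 * x * h) - (1 - h) ^ 2) * n ^ 4 := by
      rw [hk, hh]
      ring
    linarith

end Pool.Agent.Helper40.IA38
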